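import Pool.Agent.helper70.Oct.Defs
import Pool.Agent.helper26.Oct.L

set_option autoImplicit false

/-! # OCT-K: stability of the analytic conditions -/

open MvPolynomial Set Filter Topology

namespace Oct

private theorem cont_eval (P : MvPolynomial (Fin 2) ℝ) :
    Continuous (fun p : ℝ × ℝ => eval ![p.1, p.2] P) := by
  refine (MvPolynomial.continuous_eval P).comp ?_
  refine continuous_pi (fun i => ?_)
  fin_cases i
  · exact continuous_fst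
  · exact continuous_snd

private theorem posOn_stable {P : MvPolynomial (Fin 2) ℝ} (Q : MvPolynomial (Fin 2) ℝ)
    {a b c d : ℝ} (h : PosOn P a b c d) : ∀ᶠ ε in 𝓝 (0 : ℝ), PosOn (P + C ε * Q) a b c d := by
  have hK : IsCompact (Icc a b ×ˢ Icc c d) := isCompact_Icc.prod isCompact_Icc
  have hP := cont_eval P
  have hQ := cont_eval Q
  have hcont : Continuous (fun z : ℝ × (ℝ × ℝ) =>
      eval ![z.2.1, z.2.2] P + z.1 * eval ![z.2.1, z.2.2] Q) :=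
    (hP.comp continuous_snd).add (continuous_fst.mul (hQ.comp continuous_snd))
  have hopen : IsOpen {z : ℝ × (ℝ × ℝ) |
      0 < eval ![z.2.1, z.2.2] P + z.1 * eval ![z.2.1, z.2.2] Q} :=
    isOpen_lt continuous_const hcont
  have hsub : ({0} : Set ℝ) ×ˢ (Icc a b ×ˢ Icc c d) ⊆ {z : ℝ × (ℝ × ℝ) |
      0 < eval ![z.2.1, z.2.2] P + z.1 * eval ![z.2.1, z.2.2] Q} := by
    rintro ⟨ε, t, u⟩ ⟨h1, h2, h3⟩
    have h1' : ε = 0 := h1
    subst h1'
    have := h t h2 u h3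
    simpa using this
  obtain ⟨U, V, hU, hV, hU0, hKV, hUV⟩ :=
    generalized_tube_lemma isCompact_singleton hK hopen hsub
  filter_upwards [hU.mem_nhds (hU0 rfl)] with ε hε
  intro t ht u hu
  have hmem : (ε, (t, u)) ∈ U ×ˢ V := ⟨hε, hKV ⟨ht, hu⟩⟩
  have := hUV hmem
  simpa using this

private theorem posOn_congr {P Q : MvPolynomial (Fin 2) ℝ} (h : P = Q) {a b c d : ℝ}
    (hP : PosOn P a b c d) : PosOn Q a b c d := h ▸ hP

private theorem pull_add (c : Chart) (F G : MvPolynomial (Fin 3) ℝ) (ε : ℝ) :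
    c.pull (F + C ε * G) = c.pull F + C ε * c.pull G := by
  unfold Chart.pull
  rw [map_add, map_mul, MvPolynomial.aeval_C, MvPolynomial.algebraMap_eq]

private theorem pullEnd_add (c : Chart) (h : ℤ) (σ : Bool) (F G : MvPolynomial (Fin 3) ℝ) (ε : ℝ) :
    c.pullEnd h σ (F + C ε * G) = c.pullEnd h σ F + C ε * c.pullEnd h σ G := by
  unfold Chart.pullEnd
  rw [map_add, map_mul, MvPolynomial.aeval_C, MvPolynomial.algebraMap_eq]

private theorem pd_add (i : Fin 2) (P Q : MvPolynomial (Fin 2) ℝ) (ε : ℝ) :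
    pderiv i (P + C ε * Q) = pderiv i P + C ε * pderiv i Q := by
  rw [map_add, pderiv_C_mul]

private theorem st {c : ℝ} {P : MvPolynomial (Fin 2) ℝ} {R : ℝ → MvPolynomial (Fin 2) ℝ}
    (Q : MvPolynomial (Fin 2) ℝ) (hR : ∀ ε, R ε = P + C ε * Q)
    {a b x y : ℝ} (h : PosOn (C c * P) a b x y) :
    ∀ᶠ ε in 𝓝 (0 : ℝ), PosOn (C c * R ε) a b x y := by
  filter_upwards [posOn_stable (C c * Q) h] with ε hε
  refine posOn_congr ?_ hε
  rw [hR]
  ring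

private theorem boxOK_stable {F : MvPolynomial (Fin 3) ℝ} (G : MvPolynomial (Fin 3) ℝ)
    {col : Column} {b : Box} (h : BoxOK F col b) :
    ∀ᶠ ε in 𝓝 (0 : ℝ), BoxOK (F + C ε * G) col b := by
  have e0 : ∀ ε, col.ch.pull (F + C ε * G) = col.ch.pull F + C ε * col.ch.pull G :=
    pull_add col.ch F G
  have e1 : ∀ (i : Fin 2) ε, pderiv i (col.ch.pull (F + C ε * G)) =
      pderiv i (col.ch.pull F) + C ε * pderiv i (col.ch.pull G) := by
    intro i ε; rw [e0, pd_add]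
  have e2 : ∀ ε, pderiv 1 (pderiv 1 (col.ch.pull (F + C ε * G))) =
      pderiv 1 (pderiv 1 (col.ch.pull F)) + C ε * pderiv 1 (pderiv 1 (col.ch.pull G)) := by
    intro ε; rw [e1, pd_add]
  obtain ⟨h1, h2, h3⟩ := h
  rcases h3 with ⟨p1, p2, p3⟩ | ⟨p1, p2, p3⟩ | ⟨p1, p2, p3, p4, p5, p6⟩ | ⟨p1, p2, p3, p4, p5, p6⟩
  · filter_upwards [st _ e0 h1, st _ e0 h2, st _ e0 p3] with ε q1 q2 q3
    exact ⟨q1, q2, Or.inl ⟨p1, p2, q3⟩⟩
  · filter_upwards [st _ e0 h1, st _ e0 h2, st _ (e1 1) p3] with ε q1 q2 q3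
    exact ⟨q1, q2, Or.inr (Or.inl ⟨p1, p2, q3⟩)⟩
  · filter_upwards [st _ e0 h1, st _ e0 h2, st _ e0 p3, st _ (e1 0) p4, st _ e2 p5, st _ e0 p6]
      with ε q1 q2 q3 q4 q5 q6
    exact ⟨q1, q2, Or.inr (Or.inr (Or.inl ⟨p1, p2, q3, q4, q5, q6⟩))⟩
  · filter_upwards [st _ e0 h1, st _ e0 h2, st _ e0 p3, st _ (e1 0) p4, st _ e2 p5, st _ e0 p6]
      with ε q1 q2 q3 q4 q5 q6
    exact ⟨q1, q2, Or.inr (Or.inr (Or.inr ⟨p1, p2, q3, q4, q5, q6⟩))⟩

private theorem ev_list {α : Type} {l : List α} {p : α → ℝ → Prop}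
    (h : ∀ x ∈ l, ∀ᶠ ε in 𝓝 (0 : ℝ), p x ε) : ∀ᶠ ε in 𝓝 (0 : ℝ), ∀ x ∈ l, p x ε := by
  induction l with
  | nil => simp
  | cons y l ih =>
    simp only [List.mem_cons, forall_eq_or_imp]
    exact (h y (by simp)).and (ih (fun x hx => h x (by simp [hx])))

theorem anaOK_stable {F : MvPolynomial (Fin 3) ℝ} (G : MvPolynomial (Fin 3) ℝ) {sp : Bool}
    {cols : List Column} (h : AnaOK F sp cols) :
    ∀ᶠ ε in 𝓝 (0 : ℝ), AnaOK (F + C ε * G) sp cols := by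
  refine ev_list (fun col hcol => ?_)
  obtain ⟨h1, h2, h3⟩ := h col hcol
  have h3' : ∀ᶠ ε in 𝓝 (0 : ℝ), ∀ b ∈ col.bx, BoxOK (F + C ε * G) col b :=
    ev_list (fun b hb => boxOK_stable G (h3 b hb))
  filter_upwards [st _ (pullEnd_add col.ch col.H true F G) h1,
    st _ (pullEnd_add col.ch col.L false F G) h2, h3'] with ε q1 q2 q3
  exact ⟨q1, q2, q3⟩

theorem perturb {F : MvPolynomial (Fin 3) ℝ} {d : ℕ} (hF : F.IsHomogeneous d) (hd : 2 ≤ d)
    {sp : Bool} {cols : List Column} (h : AnaOK F sp cols) :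
    ∃ F' : MvPolynomial (Fin 3) ℝ, F'.IsHomogeneous d ∧ Nonsingular F' ∧ AnaOK F' sp cols := by
  have h1 := anaOK_stable (X 0 ^ d + X 1 ^ d + X 2 ^ d) h
  have h2 := Oct.nonsing_generic hF hd
  have h3 : {ε : ℝ | AnaOK (F + C ε * (X 0 ^ d + X 1 ^ d + X 2 ^ d)) sp cols}.Infinite :=
    infinite_of_mem_nhds 0 h1
  obtain ⟨ε, hε1, hε2⟩ := (h3.sdiff h2).nonempty
  refine ⟨F + C ε * (X 0 ^ d + X 1 ^ d + X 2 ^ d), ?_, not_not.1 hε2, hε1⟩
  refine hF.add (IsHomogeneous.C_mul ?_ ε)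
  exact ((isHomogeneous_X_pow 0 d).add (isHomogeneous_X_pow 1 d)).add (isHomogeneous_X_pow 2 d)

end Oct
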