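import Pool.Agent.helper70.Oct.Chk

set_option autoImplicit false

/-! # OCT-J4: the packed arithmetic computes the homogeneous forms -/

open MvPolynomial Set Filter Topology

namespace Oct

def negT (G : List (List ℤ)) : List (List ℤ) := G.map (fun l => l.map (fun c => -c))

private theorem absP_neg (l : List ℤ) (x : ℕ) : absP (l.map (fun c => -c)) x = absP l x := by
  induction l with
  | nil => rfl
  | cons c l ih =>
    unfold absP at ih ⊢
    rw [List.map_cons, List.foldr_cons, List.foldr_cons, ih, Int.natAbs_neg]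

private theorem absT_neg (G : List (List ℤ)) (t u : ℕ) : absT (negT G) t u = absT G t u := by
  induction G with
  | nil => rfl
  | cons l G ih =>
    unfold negT absT at ih ⊢
    rw [List.map_cons, List.foldr_cons, List.foldr_cons, ih, absP_neg]

theorem sizeOK_neg (B m n : ℕ) (G : List (List ℤ)) (tm um : ℕ) :
    sizeOK B m n (negT G) tm um = sizeOK B m n G tm um := by
  unfold sizeOK
  rw [absT_neg]
  unfold negT
  rw [List.length_map, List.all_map]
  simp only [Function.comp_def, List.length_map]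

private theorem evP_cons (c : ℤ) (l : List ℤ) (x : ℝ) :
    evP (c :: l) x = (c : ℝ) + x * evP l x := rfl

private theorem evP_neg (l : List ℤ) (x : ℝ) : evP (l.map (fun c => -c)) x = -evP l x := by
  induction l with
  | nil => simp [evP]
  | cons c l ih =>
    rw [List.map_cons, evP_cons, evP_cons, ih]
    push_cast
    ring

theorem evT_neg (G : List (List ℤ)) (t u : ℝ) : evT (negT G) t u = -evT G t u := by
  induction G with
  | nil => simp [evT, negT]
  | cons l G ih =>
    unfold negT evT at ih ⊢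
    rw [List.map_cons, List.foldr_cons, List.foldr_cons, ih, evP_neg]
    ring

/-! ### homogeneous forms -/

private theorem homP_map {R S : Type} [CommRing R] [CommRing S] (f : R →+* S) (m : ℕ)
    (l : List ℤ) (A D : R) : f (homP m l A D) = homP m l (f A) (f D) := by
  induction l generalizing m with
  | nil => simp [homP]
  | cons g l ih =>
    simp only [homP, map_add, map_mul, map_pow, map_intCast, ih]

private theorem homT_map {R S : Type} [CommRing R] [CommRing S] (f : R →+* S) (m n : ℕ)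
    (G : List (List ℤ)) (A D A' D' : R) :
    f (homT m n G A D A' D') = homT m n G (f A) (f D) (f A') (f D') := by
  induction G generalizing n with
  | nil => simp [homT]
  | cons l G ih =>
    simp only [homT, map_add, map_mul, map_pow, homP_map, ih]

private theorem homP_neg {R : Type} [CommRing R] (m : ℕ) (l : List ℤ) (A D : R) :
    homP m (l.map (fun c => -c)) A D = -homP m l A D := by
  induction l generalizing m with
  | nil => simp [homP]
  | cons g l ih =>
    rw [List.map_cons]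
    simp only [homP, ih]
    push_cast
    ring

private theorem homT_neg {R : Type} [CommRing R] (m n : ℕ) (G : List (List ℤ)) (A D A' D' : R) :
    homT m n (negT G) A D A' D' = -homT m n G A D A' D' := by
  unfold negT
  induction G generalizing n with
  | nil => simp [homT]
  | cons l G ih =>
    rw [List.map_cons]
    simp only [homT, ih, homP_neg]
    ring

private theorem homP_smul {R : Type} [CommRing R] (k : ℤ) (m : ℕ) (l : List ℤ) (A D : R) :
    homP m (l.map (fun c => k * c)) A D = k * homP m l A D := by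
  induction l generalizing m with
  | nil => simp [homP]
  | cons g l ih =>
    rw [List.map_cons]
    simp only [homP, ih]
    push_cast
    ring

/-! ### the packed functions -/

private theorem pw_succ (c n : ℕ) : pw c (n + 1) = c ^ (n + 1) :: pw c n := by
  have h0 : ∀ n, ∃ l, pw c n = c ^ n :: l := by
    intro n
    induction n with
    | zero => exact ⟨[], by rw [pow_zero]; rfl⟩
    | succ n ih =>
      obtain ⟨l, hl⟩ := ih
      refine ⟨pw c n, ?_⟩
      show (List.rec (motive := fun _ => List ℕ) [] (fun a _ _ => (Nat.mul c a) :: pw c n)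
        (pw c n) : List ℕ) = _
      rw [hl]
      show (c * c ^ n) :: (c ^ n :: l) = _
      rw [pow_succ, mul_comm]
  obtain ⟨l, hl⟩ := h0 n
  show (List.rec (motive := fun _ => List ℕ) [] (fun a _ _ => (Nat.mul c a) :: pw c n)
    (pw c n) : List ℕ) = _
  rw [hl]
  show (c * c ^ n) :: (c ^ n :: l) = _
  rw [pow_succ, mul_comm]

private theorem pw_zero (c : ℕ) : pw c 0 = [1] := rfl

private theorem vrow_cons (M2 A : ℕ) (g : ℤ) (l : List ℤ) (c : ℕ) (cs : List ℕ) :
    vrow M2 A (g :: l) (c :: cs) = term M2 g c + A * vrow M2 A l cs := rfl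

private theorem vrow_nil (M2 A : ℕ) (CP : List ℕ) : vrow M2 A [] CP = 0 := rfl

private theorem vrow_cons_nil (M2 A : ℕ) (g : ℤ) (l : List ℤ) : vrow M2 A (g :: l) [] = 0 := rfl

private theorem vrows_cons (M1 M2 A : ℕ) (CP : List ℕ) (l : List ℤ) (G : List (List ℤ)) :
    vrows M1 M2 A CP (l :: G) = Nat.land (vrow M2 A l CP) M1 :: vrows M1 M2 A CP G := rfl

private theorem vrows_nil (M1 M2 A : ℕ) (CP : List ℕ) : vrows M1 M2 A CP [] = [] := rfl

private theorem zipM_cons (v c : ℕ) (l CP : List ℕ) : zipM (v :: l) (c :: CP) =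
    (v * c) :: zipM l CP := rfl

private theorem zipM_nil (CP : List ℕ) : zipM [] CP = [] := rfl

private theorem horU_cons (A w : ℕ) (W : List ℕ) : horU A (w :: W) = w + A * horU A W := rfl

private theorem horU_nil (A : ℕ) : horU A [] = 0 := rfl

private theorem altM_nil (M : ℕ) (f : Bool) : altM M [] f = [] := rfl

private theorem altM_cons_false (M v : ℕ) (V : List ℕ) :
    altM M (v :: V) false = v :: altM M V true := rfl

private theorem altM_cons_true (M v : ℕ) (V : List ℕ) :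
    altM M (v :: V) true = (M - v) :: altM M V false := rfl

private theorem term_cast {M M2 : ℕ} (hM : M ∣ M2) {g : ℤ} {c : ℕ} (hg : g.natAbs * c ≤ M2) :
    ((term M2 g c : ℕ) : ZMod M) = (g : ZMod M) * c := by
  have h2 : ((M2 : ℕ) : ZMod M) = 0 := (ZMod.natCast_eq_zero_iff M2 M).2 hM
  cases g with
  | ofNat k =>
    show (((k * c : ℕ)) : ZMod M) = _
    push_cast
    simp
  | negSucc k =>
    show (((M2 - (k + 1) * c : ℕ)) : ZMod M) = _
    have h3 : (k + 1) * c ≤ M2 := by simpa using hg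
    rw [Nat.cast_sub h3, h2, Int.negSucc_eq]
    push_cast
    ring

private theorem vrow_cast {M M2 Q : ℕ} (hM : M ∣ M2) (A D : ℕ) (hD : 1 ≤ D) (m : ℕ)
    (hDm : Q * D ^ m ≤ M2) (l : List ℤ) (hl : l.length ≤ m + 1) (hg : ∀ g ∈ l, g.natAbs ≤ Q) :
    ((vrow M2 A l (pw D m) : ℕ) : ZMod M) = homP m l (A : ZMod M) (D : ZMod M) := by
  induction l generalizing m with
  | nil => simp [vrow_nil, homP]
  | cons g l ih =>
    have hg1 : g.natAbs ≤ Q := hg g (by simp)
    have hterm : g.natAbs * D ^ m ≤ M2 := (Nat.mul_le_mul_right _ hg1).trans hDm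
    cases m with
    | zero =>
      have hl0 : l = [] := by
        rw [List.length_cons] at hl
        exact List.length_eq_zero_iff.1 (by omega)
      subst hl0
      rw [pw_zero, vrow_cons, vrow_nil]
      push_cast
      rw [term_cast hM (by simpa using hterm)]
      simp [homP]
    | succ m =>
      rw [pw_succ, vrow_cons]
      push_cast
      rw [term_cast hM hterm, ih m ?_ ?_ (fun g hg' => hg g (by simp [hg']))]
      · simp [homP]
      · refine le_trans (Nat.mul_le_mul_left _ ?_) hDm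
        exact Nat.pow_le_pow_right hD (Nat.le_succ m)
      · rw [List.length_cons] at hl
        omega

private theorem land_cast {K x : ℕ} :
    ((Nat.land x (2 ^ K - 1) : ℕ) : ZMod (2 ^ K)) = (x : ZMod (2 ^ K)) := by
  have h : Nat.land x (2 ^ K - 1) = x % 2 ^ K := Nat.and_two_pow_sub_one_eq_mod x K
  rw [h, ZMod.natCast_mod]

private theorem land_le {K x : ℕ} : Nat.land x (2 ^ K - 1) ≤ 2 ^ K := by
  have h : Nat.land x (2 ^ K - 1) = x % 2 ^ K := Nat.and_two_pow_sub_one_eq_mod x K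
  rw [h]
  exact (Nat.mod_lt _ (by positivity)).le

/-- relation between the entries of `vrows` and the rows of the table -/
private theorem hor_zip {K M2 Q : ℕ} (hM : 2 ^ K ∣ M2) (A D : ℕ) (hD : 1 ≤ D) (m : ℕ)
    (hDm : Q * D ^ m ≤ M2) (A' D' : ℕ) (G : List (List ℤ)) (n : ℕ) (hn : G.length ≤ n + 1)
    (hm : ∀ l ∈ G, l.length ≤ m + 1) (hg : ∀ l ∈ G, ∀ g ∈ l, g.natAbs ≤ Q) :
    ((horU A' (zipM (vrows (2 ^ K - 1) M2 A (pw D m) G) (pw D' n)) : ℕ) : ZMod (2 ^ K)) =
      homT m n G (A : ZMod (2 ^ K)) D A' D' := by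
  induction G generalizing n with
  | nil => simp [vrows_nil, zipM_nil, horU_nil, homT]
  | cons l G ih =>
    have h1 := vrow_cast (M := 2 ^ K) hM A D hD m hDm l (hm l (by simp)) (hg l (by simp))
    cases n with
    | zero =>
      have hG0 : G = [] := by
        rw [List.length_cons] at hn
        exact List.length_eq_zero_iff.1 (by omega)
      subst hG0
      rw [vrows_cons, vrows_nil, pw_zero, zipM_cons, zipM_nil, horU_cons, horU_nil]
      push_cast
      rw [land_cast, h1]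
      simp [homT]
    | succ n =>
      rw [vrows_cons, pw_succ, zipM_cons, horU_cons]
      push_cast
      rw [land_cast, h1, ih n ?_ (fun l hl => hm l (by simp [hl])) (fun l hl => hg l (by simp [hl]))]
      · simp [homT]
      · rw [List.length_cons] at hn
        omega

/-- the same with the derivative -/
private theorem hor_zip_der {K M2 Q : ℕ} (hM : 2 ^ K ∣ M2) (A D : ℕ) (hD : 1 ≤ D) (m : ℕ)
    (hDm : Q * D ^ m ≤ M2) (A' D' : ℕ) (G : List (List ℤ)) (n : ℕ) (hn : G.length ≤ n + 1)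
    (hm : ∀ l ∈ G, l.length ≤ m + 1) (hg : ∀ l ∈ G, ∀ g ∈ l, g.natAbs ≤ Q) (k n' : ℕ)
    (hn' : G.length ≤ n') :
    ((horU A' (zipM (zipM (vrows (2 ^ K - 1) M2 A (pw D m) G) (List.range' k n')) (pw D' n)) : ℕ) :
      ZMod (2 ^ K)) = homT m n (derT k G) (A : ZMod (2 ^ K)) D A' D' := by
  induction G generalizing n k n' with
  | nil => simp [vrows_nil, zipM_nil, horU_nil, derT, homT]
  | cons l G ih =>
    have h1 := vrow_cast (M := 2 ^ K) hM A D hD m hDm l (hm l (by simp)) (hg l (by simp))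
    obtain ⟨n', rfl⟩ : ∃ q, n' = q + 1 := ⟨n' - 1, by rw [List.length_cons] at hn'; omega⟩
    rw [List.range'_succ]
    have h2 : homT m n (derT k (l :: G)) (A : ZMod (2 ^ K)) D A' D' =
        (k : ZMod (2 ^ K)) * homP m l (A : ZMod (2 ^ K)) D * (D' : ZMod (2 ^ K)) ^ n +
          A' * homT m (n - 1) (derT (k + 1) G) (A : ZMod (2 ^ K)) D A' D' := by
      simp only [derT, homT]
      rw [homP_smul]
      push_cast
      ring
    rw [h2]
    cases n with
    | zero =>
      have hG0 : G = [] := by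
        rw [List.length_cons] at hn
        exact List.length_eq_zero_iff.1 (by omega)
      subst hG0
      rw [vrows_cons, vrows_nil, pw_zero, zipM_cons, zipM_nil, zipM_cons, zipM_nil, horU_cons,
        horU_nil]
      push_cast
      rw [land_cast, h1]
      simp [homT, derT, mul_comm]
    | succ n =>
      rw [vrows_cons, pw_succ, zipM_cons, zipM_cons, horU_cons]
      push_cast
      rw [land_cast, h1, ih n ?_ (fun l hl => hm l (by simp [hl]))
        (fun l hl => hg l (by simp [hl])) (k + 1) n' ?_]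
      · show _ = (k : ZMod (2 ^ K)) * homP m l (A : ZMod (2 ^ K)) D * (D' : ZMod (2 ^ K)) ^ (n + 1) +
          A' * homT m n (derT (k + 1) G) (A : ZMod (2 ^ K)) D A' D'
        ring
      · rw [List.length_cons] at hn
        omega
      · rw [List.length_cons] at hn'
        omega

private theorem cnt_eq (n : ℕ) : cnt n = List.range' 1 n := by
  unfold cnt
  rw [List.range'_eq_map_range]
  refine List.map_congr_left (fun x _ => ?_)
  omega

/-- without the second factor -/
private theorem hor_plain {K M2 Q : ℕ} (hM : 2 ^ K ∣ M2) (A D : ℕ) (hD : 1 ≤ D) (m : ℕ)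
    (hDm : Q * D ^ m ≤ M2) (A' : ℕ) (G : List (List ℤ)) (n : ℕ)
    (hm : ∀ l ∈ G, l.length ≤ m + 1) (hg : ∀ l ∈ G, ∀ g ∈ l, g.natAbs ≤ Q) :
    ((horU A' (vrows (2 ^ K - 1) M2 A (pw D m) G) : ℕ) : ZMod (2 ^ K)) =
      homT m n G (A : ZMod (2 ^ K)) D A' 1 := by
  induction G generalizing n with
  | nil => simp [vrows_nil, horU_nil, homT]
  | cons l G ih =>
    have h1 := vrow_cast (M := 2 ^ K) hM A D hD m hDm l (hm l (by simp)) (hg l (by simp))
    rw [vrows_cons, horU_cons]
    push_cast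
    rw [land_cast, h1, ih (n - 1) (fun l hl => hm l (by simp [hl])) (fun l hl => hg l (by simp [hl]))]
    simp [homT]

/-- alternating signs -/
private theorem hor_alt {K M2 Q : ℕ} (hM : 2 ^ K ∣ M2) (A D : ℕ) (hD : 1 ≤ D) (m : ℕ)
    (hDm : Q * D ^ m ≤ M2) (A' : ℕ) (G : List (List ℤ)) (n : ℕ)
    (hm : ∀ l ∈ G, l.length ≤ m + 1) (hg : ∀ l ∈ G, ∀ g ∈ l, g.natAbs ≤ Q) :
    ((horU A' (altM (2 ^ K) (vrows (2 ^ K - 1) M2 A (pw D m) G) false) : ℕ) : ZMod (2 ^ K)) =
      homT m n G (A : ZMod (2 ^ K)) D (-(A' : ZMod (2 ^ K))) 1 ∧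
    ((horU A' (altM (2 ^ K) (vrows (2 ^ K - 1) M2 A (pw D m) G) true) : ℕ) : ZMod (2 ^ K)) =
      -homT m n G (A : ZMod (2 ^ K)) D (-(A' : ZMod (2 ^ K))) 1 := by
  induction G generalizing n with
  | nil => simp [vrows_nil, horU_nil, altM_nil, homT]
  | cons l G ih =>
    have h1 := vrow_cast (M := 2 ^ K) hM A D hD m hDm l (hm l (by simp)) (hg l (by simp))
    obtain ⟨i1, i2⟩ := ih (n - 1) (fun l hl => hm l (by simp [hl])) (fun l hl => hg l (by simp [hl]))
    have h0 : ((2 : ZMod (2 ^ K)) ^ K) = 0 := by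
      have := ZMod.natCast_self (2 ^ K)
      push_cast at this
      exact this
    constructor
    · rw [vrows_cons, altM_cons_false, horU_cons]
      push_cast
      rw [land_cast, h1, i2]
      simp [homT]
    · rw [vrows_cons, altM_cons_true, horU_cons]
      push_cast
      rw [Nat.cast_sub land_le, land_cast, h1, i1]
      push_cast
      rw [h0]
      simp [homT]
      ring

/-! ### sizes -/

private theorem absP_ge {l : List ℤ} {x : ℕ} (hx : 1 ≤ x) : ∀ g ∈ l, g.natAbs ≤ absP l x := by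
  induction l with
  | nil => simp
  | cons c l ih =>
    have h : absP (c :: l) x = c.natAbs + x * absP l x := rfl
    intro g hg
    rw [h]
    rcases List.mem_cons.1 hg with rfl | hg
    · omega
    · have h1 := ih g hg
      have h2 : absP l x ≤ x * absP l x := Nat.le_mul_of_pos_left _ hx
      omega

private theorem absT_ge {G : List (List ℤ)} {t u : ℕ} (ht : 1 ≤ t) (hu : 1 ≤ u) :
    ∀ l ∈ G, ∀ g ∈ l, g.natAbs ≤ absT G t u := by
  induction G with
  | nil => simp
  | cons c G ih =>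
    have h : absT (c :: G) t u = absP c t + u * absT G t u := rfl
    intro l hl g hg
    rw [h]
    rcases List.mem_cons.1 hl with rfl | hl
    · have := absP_ge ht g hg
      omega
    · have h1 := ih l hl g hg
      have h2 : absT G t u ≤ u * absT G t u := Nat.le_mul_of_pos_left _ hu
      omega

private structure Sz (B m n : ℕ) (G : List (List ℤ)) : Prop where
  len : G.length ≤ n + 1
  row : ∀ l ∈ G, l.length ≤ m + 1
  B1 : 1 ≤ B
  mn : m + n ≤ B
  small : ∀ l ∈ G, ∀ g ∈ l, g.natAbs ≤ 2 ^ B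

private theorem sz_of {B m n : ℕ} {G : List (List ℤ)} {tm um : ℕ}
    (hs : sizeOK B m n G tm um = true) : Sz B m n G := by
  unfold sizeOK at hs
  simp only [Bool.and_eq_true, decide_eq_true_eq, List.all_eq_true] at hs
  obtain ⟨⟨⟨⟨⟨h1, h2⟩, h3⟩, h4⟩, h5⟩, h6⟩ := hs
  have h7 : 2 ^ (m + n) < 2 ^ (B - 1) := by
    refine lt_of_le_of_lt ?_ h3
    exact Nat.le_mul_of_pos_right _ (Nat.succ_pos _)
  have h8 : m + n < B - 1 := (Nat.pow_lt_pow_iff_right (by norm_num)).1 h7
  refine ⟨h1, h2, h4, by omega, fun l hl g hg => ?_⟩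
  have h9 := absT_ge h6 h5 l hl g hg
  have h10 : absT G tm um + 1 ≤ 2 ^ (m + n) * (absT G tm um + 1) :=
    Nat.le_mul_of_pos_left _ (by positivity)
  have h11 : (2 : ℕ) ^ (B - 1) ≤ 2 ^ B := Nat.pow_le_pow_right (by norm_num) (by omega)
  omega

private theorem one_add_pow_le {a k : ℕ} : (1 + 2 ^ a) ^ k ≤ 2 ^ (k + a * k) := by
  have h : 1 + 2 ^ a ≤ 2 ^ (a + 1) := by
    rw [pow_succ]
    have : 1 ≤ 2 ^ a := Nat.one_le_two_pow
    omega
  calc (1 + 2 ^ a) ^ k ≤ (2 ^ (a + 1)) ^ k := Nat.pow_le_pow_left h k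
    _ = 2 ^ (k + a * k) := by rw [← pow_mul]; congr 1; ring

private theorem o2_le {B m n : ℕ} (h : m + n ≤ B) :
    (1 + 2 ^ (B * (n + 1))) ^ m ≤ 2 ^ (B * ((m + 1) * (n + 1))) := by
  refine one_add_pow_le.trans (Nat.pow_le_pow_right (by norm_num) ?_)
  have : B * ((m + 1) * (n + 1)) = B * (n + 1) * m + B * (n + 1) := by ring
  rw [this]
  have h2 : B ≤ B * (n + 1) := Nat.le_mul_of_pos_right _ (by omega)
  omega

private theorem o1_le {B m n : ℕ} (h : m + n ≤ B) :
    (1 + 2 ^ (B * (n + 1))) ^ m * (1 + 2 ^ B) ^ n ≤ 2 ^ (B * ((m + 1) * (n + 1))) := by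
  calc (1 + 2 ^ (B * (n + 1))) ^ m * (1 + 2 ^ B) ^ n
      ≤ 2 ^ (m + B * (n + 1) * m) * 2 ^ (n + B * n) :=
        Nat.mul_le_mul one_add_pow_le one_add_pow_le
    _ = 2 ^ ((m + n) + (B * (n + 1) * m + B * n)) := by rw [← pow_add]; congr 1; ring
    _ ≤ 2 ^ (B + (B * (n + 1) * m + B * n)) :=
        Nat.pow_le_pow_right (by norm_num) (by omega)
    _ = 2 ^ (B * ((m + 1) * (n + 1))) := by congr 1; ring

/-! ### the test -/

private theorem mkRw_p (M o A : ℕ) (W : List ℕ) (ho : o ≤ M) :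
    (((mkRw M o W).p + A * horU A (mkRw M o W).t : ℕ) : ZMod M) =
      ((horU A W : ℕ) : ZMod M) - (o : ZMod M) := by
  cases W with
  | nil =>
    show (((M - o) + A * horU A [] : ℕ) : ZMod M) = _
    rw [horU_nil]
    push_cast
    rw [Nat.cast_sub ho]
    simp
  | cons w W =>
    show (((w + (M - o)) + A * horU A W : ℕ) : ZMod M) = _
    rw [horU_cons]
    push_cast
    rw [Nat.cast_sub ho]
    simp
    ring

private theorem mkRw_m (M o A : ℕ) (W : List ℕ) :
    (((mkRw M o W).m + A * horU A (mkRw M o W).t : ℕ) : ZMod M) =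
      ((horU A W : ℕ) : ZMod M) + (o : ZMod M) := by
  cases W with
  | nil =>
    show ((o + A * horU A [] : ℕ) : ZMod M) = _
    rw [horU_nil]
    push_cast
    simp
  | cons w W =>
    show (((w + o) + A * horU A W : ℕ) : ZMod M) = _
    rw [horU_cons]
    push_cast
    ring

/-- the number tested -/
private theorem tst_wit {k : Pk} {K : ℕ} (hM : k.M = 2 ^ K) (hM1 : k.M1 = 2 ^ K - 1) {o A : ℕ}
    {W : List ℕ} (ho : o ≤ 2 ^ K) {s : Bool} (h : tst k (mkRw k.M o W) s A = true) :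
    ∃ x : ℕ, ((x : ZMod (2 ^ K)) = (if s then ((horU A W : ℕ) : ZMod (2 ^ K))
      else -((horU A W : ℕ) : ZMod (2 ^ K))) - (o : ZMod (2 ^ K))) ∧ Nat.land x k.ms = 0 := by
  cases s
  · have h' : Nat.beq (Nat.land (k.M - (Nat.land ((mkRw k.M o W).m +
        A * horU A (mkRw k.M o W).t) k.M1)) k.ms) 0 = true := h
    refine ⟨_, ?_, Nat.eq_of_beq_eq_true h'⟩
    rw [hM, hM1, Nat.cast_sub land_le, land_cast, mkRw_m]
    simp
    ring
  · have h' : Nat.beq (Nat.land ((mkRw k.M o W).p +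
        A * horU A (mkRw k.M o W).t) k.ms) 0 = true := h
    refine ⟨_, ?_, Nat.eq_of_beq_eq_true h'⟩
    rw [hM, mkRw_p _ _ _ _ ho]
    simp

private theorem to_modEq {K : ℕ} {x : ℕ} {y : ℤ} (h : (x : ZMod (2 ^ K)) = (y : ZMod (2 ^ K))) :
    (x : ℤ) ≡ y [ZMOD 2 ^ K] := by
  have h1 : (((x : ℤ) : ZMod (2 ^ K))) = ((y : ℤ) : ZMod (2 ^ K)) := by
    rw [Int.cast_natCast]
    exact h
  have h2 := (ZMod.intCast_eq_intCast_iff _ _ _).1 h1
  push_cast at h2
  exact h2

private theorem hDm_of {B m n : ℕ} (h : m + n ≤ B) :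
    2 ^ B * (1 + 2 ^ (B * (n + 1))) ^ m ≤ 2 ^ (B * ((m + 1) * (n + 1)) + B) := by
  rw [pow_add, mul_comm]
  exact Nat.mul_le_mul_right _ (o2_le h)

theorem rep_box {B m n : ℕ} {G : List (List ℤ)} {tm um : ℕ} (hs : sizeOK B m n G tm um = true)
    (a b lo hi : ℕ) (s : Bool)
    (h : tst (pkOf B m n) (rwOf (pkOf B m n) (vOf (pkOf B m n) G a b)) s
      (ivl (pkOf B m n) lo hi) = true) :
    ∃ x : ℕ, ((x : ℤ) ≡ homT (R := ℤ) m n (if s then G else negT G) (a + b * 2 ^ (B * (n + 1)))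
        (1 + 2 ^ (B * (n + 1))) (lo + hi * 2 ^ B) (1 + 1 * 2 ^ B)
      - (1 + 2 ^ (B * (n + 1))) ^ m * (1 + 1 * 2 ^ B) ^ n [ZMOD 2 ^ (B * ((m + 1) * (n + 1)))]) ∧
      Nat.land x (mask B ((m + 1) * (n + 1))) = 0 := by
  have z := sz_of hs
  set K := B * ((m + 1) * (n + 1)) with hK
  obtain ⟨x, hx, hx2⟩ := tst_wit (k := pkOf B m n) (K := K) rfl rfl (o1_le z.mn) h
  refine ⟨x, to_modEq ?_, hx2⟩
  rw [hx]
  have h1 := hor_zip (K := K) (M2 := 2 ^ (K + B)) (Q := 2 ^ B) (pow_dvd_pow 2 (by omega))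
    (a + b * 2 ^ (B * (n + 1))) (1 + 2 ^ (B * (n + 1))) (Nat.le_add_right 1 _) m (hDm_of z.mn)
    (lo + hi * 2 ^ B) (1 + 2 ^ B) G n z.len z.row z.small
  have h2 : horU (ivl (pkOf B m n) lo hi) (zipM (vOf (pkOf B m n) G a b) (pkOf B m n).CU) =
      horU (lo + hi * 2 ^ B) (zipM (vrows (2 ^ K - 1) (2 ^ (K + B)) (a + b * 2 ^ (B * (n + 1)))
        (pw (1 + 2 ^ (B * (n + 1))) m) G) (pw (1 + 2 ^ B) n)) := rfl
  rw [h2, h1]
  cases s
  · simp only [if_neg Bool.false_ne_true]
    rw [homT_neg]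
    push_cast
    have h3 := homT_map (Int.castRingHom (ZMod (2 ^ K))) m n G
      ((a : ℤ) + b * 2 ^ (B * (n + 1))) (1 + 2 ^ (B * (n + 1))) (lo + hi * 2 ^ B) (1 + 1 * 2 ^ B)
    simp only [Int.coe_castRingHom] at h3
    rw [h3]
    push_cast
    simp only [one_mul]
  · simp only [if_true]
    push_cast
    have h3 := homT_map (Int.castRingHom (ZMod (2 ^ K))) m n G
      ((a : ℤ) + b * 2 ^ (B * (n + 1))) (1 + 2 ^ (B * (n + 1))) (lo + hi * 2 ^ B) (1 + 1 * 2 ^ B)
    simp only [Int.coe_castRingHom] at h3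
    rw [h3]
    push_cast
    simp only [one_mul]

private theorem vrows_tail (M1 M2 A : ℕ) (CP : List ℕ) (G : List (List ℤ)) :
    (vrows M1 M2 A CP G).tail = vrows M1 M2 A CP G.tail := by
  cases G <;> rfl

theorem rep_boxU {B m n : ℕ} {G : List (List ℤ)} {tm um : ℕ} (hs : sizeOK B m n G tm um = true)
    (hs' : sizeOK B m n (dU G) tm um = true)
    (a b lo hi : ℕ) (s : Bool)
    (h : tst (pkOf B m n) (rwOf (pkOf B m n) (zipM (vOf (pkOf B m n) G a b).tail (cnt n))) s
      (ivl (pkOf B m n) lo hi) = true) :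
    ∃ x : ℕ, ((x : ℤ) ≡ homT (R := ℤ) m n (if s then dU G else negT (dU G)) (a + b * 2 ^ (B * (n + 1)))
        (1 + 2 ^ (B * (n + 1))) (lo + hi * 2 ^ B) (1 + 1 * 2 ^ B)
      - (1 + 2 ^ (B * (n + 1))) ^ m * (1 + 1 * 2 ^ B) ^ n [ZMOD 2 ^ (B * ((m + 1) * (n + 1)))]) ∧
      Nat.land x (mask B ((m + 1) * (n + 1))) = 0 := by
  have z := sz_of hs
  set K := B * ((m + 1) * (n + 1)) with hK
  obtain ⟨x, hx, hx2⟩ := tst_wit (k := pkOf B m n) (K := K) rfl rfl (o1_le z.mn) h
  refine ⟨x, to_modEq ?_, hx2⟩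
  rw [hx]
  have hlen : G.tail.length ≤ n := by
    rw [List.length_tail]
    have := z.len
    omega
  have h1 := hor_zip_der (K := K) (M2 := 2 ^ (K + B)) (Q := 2 ^ B) (pow_dvd_pow 2 (by omega))
    (a + b * 2 ^ (B * (n + 1))) (1 + 2 ^ (B * (n + 1))) (Nat.le_add_right 1 _) m (hDm_of z.mn)
    (lo + hi * 2 ^ B) (1 + 2 ^ B) G.tail n (by omega)
    (fun l hl => z.row l (List.mem_of_mem_tail hl))
    (fun l hl => z.small l (List.mem_of_mem_tail hl)) 1 n hlen
  have h2 : horU (ivl (pkOf B m n) lo hi) (zipM (zipM (vOf (pkOf B m n) G a b).tail (cnt n))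
      (pkOf B m n).CU) =
      horU (lo + hi * 2 ^ B) (zipM (zipM (vrows (2 ^ K - 1) (2 ^ (K + B)) (a + b * 2 ^ (B * (n + 1)))
        (pw (1 + 2 ^ (B * (n + 1))) m) G.tail) (List.range' 1 n)) (pw (1 + 2 ^ B) n)) := by
    rw [← cnt_eq, ← vrows_tail]
    rfl
  rw [h2, h1]
  have h4 : derT 1 G.tail = dU G := rfl
  rw [h4]
  cases s
  · simp only [if_neg Bool.false_ne_true]
    rw [homT_neg]
    push_cast
    have h3 := homT_map (Int.castRingHom (ZMod (2 ^ K))) m n (dU G)
      ((a : ℤ) + b * 2 ^ (B * (n + 1))) (1 + 2 ^ (B * (n + 1))) (lo + hi * 2 ^ B) (1 + 1 * 2 ^ B)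
    simp only [Int.coe_castRingHom] at h3
    rw [h3]
    push_cast
    simp only [one_mul]
  · simp only [if_true]
    push_cast
    have h3 := homT_map (Int.castRingHom (ZMod (2 ^ K))) m n (dU G)
      ((a : ℤ) + b * 2 ^ (B * (n + 1))) (1 + 2 ^ (B * (n + 1))) (lo + hi * 2 ^ B) (1 + 1 * 2 ^ B)
    simp only [Int.coe_castRingHom] at h3
    rw [h3]
    push_cast
    simp only [one_mul]

theorem rep_cap {B m n : ℕ} {G : List (List ℤ)} {tm um : ℕ} (hs : sizeOK B m n G tm um = true)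
    (a b L H : ℕ) (s : Bool)
    (h : capA (pkOf B m n) (vOf (pkOf B m n) G a b) um s L H = true) :
    (H ≤ um ∧ L ≤ um) ∧ (∃ x : ℕ, ((x : ℤ) ≡ homT (R := ℤ) m n (if s then G else negT G)
        (a + b * 2 ^ (B * (n + 1))) (1 + 2 ^ (B * (n + 1))) (H + 1 * 2 ^ B) (1 + 0 * 2 ^ B)
      - (1 + 2 ^ (B * (n + 1))) ^ m * (1 + 0 * 2 ^ B) ^ n [ZMOD 2 ^ (B * ((m + 1) * (n + 1)))]) ∧
      Nat.land x (mask B ((m + 1) * (n + 1))) = 0) ∧
    (∃ x : ℕ, ((x : ℤ) ≡ homT (R := ℤ) m n (if s then G else negT G)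
        (a + b * 2 ^ (B * (n + 1))) (1 + 2 ^ (B * (n + 1))) (L + (-1) * 2 ^ B) (1 + 0 * 2 ^ B)
      - (1 + 2 ^ (B * (n + 1))) ^ m * (1 + 0 * 2 ^ B) ^ n [ZMOD 2 ^ (B * ((m + 1) * (n + 1)))]) ∧
      Nat.land x (mask B ((m + 1) * (n + 1))) = 0) := by
  have z := sz_of hs
  set K := B * ((m + 1) * (n + 1)) with hK
  unfold capA at h
  simp only [Bool.and_eq_true] at h
  obtain ⟨⟨⟨⟨h1, h2⟩, h3⟩, h4⟩, h5⟩ := h
  have h1' : H ≤ um := Nat.le_of_ble_eq_true h1
  have h2' : L ≤ um := Nat.le_of_ble_eq_true h2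
  have h3' : L ≤ 2 ^ B := Nat.le_of_ble_eq_true h3
  refine ⟨⟨h1', h2'⟩, ?_, ?_⟩
  · obtain ⟨x, hx, hx2⟩ := tst_wit (k := pkOf B m n) (K := K) rfl rfl (o2_le z.mn) h4
    refine ⟨x, to_modEq ?_, hx2⟩
    rw [hx]
    have g1 := hor_plain (K := K) (M2 := 2 ^ (K + B)) (Q := 2 ^ B) (pow_dvd_pow 2 (by omega))
      (a + b * 2 ^ (B * (n + 1))) (1 + 2 ^ (B * (n + 1))) (Nat.le_add_right 1 _) m (hDm_of z.mn)
      (H + 2 ^ B) G n z.row z.small
    have g2 : horU (Nat.add H (pkOf B m n).Tu) (vOf (pkOf B m n) G a b) =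
        horU (H + 2 ^ B) (vrows (2 ^ K - 1) (2 ^ (K + B)) (a + b * 2 ^ (B * (n + 1)))
          (pw (1 + 2 ^ (B * (n + 1))) m) G) := rfl
    rw [g2, g1]
    have g3 := homT_map (Int.castRingHom (ZMod (2 ^ K))) m n G
      ((a : ℤ) + b * 2 ^ (B * (n + 1))) (1 + 2 ^ (B * (n + 1))) (H + 1 * 2 ^ B) (1 + 0 * 2 ^ B)
    simp only [Int.coe_castRingHom] at g3
    cases s
    · simp only [if_neg Bool.false_ne_true]
      rw [homT_neg]
      push_cast
      rw [g3]
      push_cast
      simp only [one_mul, zero_mul, add_zero, one_pow, mul_one]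
    · simp only [if_true]
      push_cast
      rw [g3]
      push_cast
      simp only [one_mul, zero_mul, add_zero, one_pow, mul_one]
  · obtain ⟨x, hx, hx2⟩ := tst_wit (k := pkOf B m n) (K := K) rfl rfl (o2_le z.mn) h5
    refine ⟨x, to_modEq ?_, hx2⟩
    rw [hx]
    have g1 := (hor_alt (K := K) (M2 := 2 ^ (K + B)) (Q := 2 ^ B) (pow_dvd_pow 2 (by omega))
      (a + b * 2 ^ (B * (n + 1))) (1 + 2 ^ (B * (n + 1))) (Nat.le_add_right 1 _) m (hDm_of z.mn)
      (2 ^ B - L) G n z.row z.small).1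
    have g2 : horU (Nat.sub (pkOf B m n).Tu L) (altM (pkOf B m n).M
        (vOf (pkOf B m n) G a b) false) =
        horU (2 ^ B - L) (altM (2 ^ K) (vrows (2 ^ K - 1) (2 ^ (K + B))
          (a + b * 2 ^ (B * (n + 1))) (pw (1 + 2 ^ (B * (n + 1))) m) G) false) := rfl
    rw [g2, g1]
    have g3 := homT_map (Int.castRingHom (ZMod (2 ^ K))) m n G
      ((a : ℤ) + b * 2 ^ (B * (n + 1))) (1 + 2 ^ (B * (n + 1))) (L + (-1) * 2 ^ B) (1 + 0 * 2 ^ B)
    simp only [Int.coe_castRingHom] at g3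
    have g4 : -(((2 ^ B - L : ℕ) : ZMod (2 ^ K))) = (L : ZMod (2 ^ K)) + (-1) * 2 ^ B := by
      rw [Nat.cast_sub h3']
      push_cast
      ring
    rw [g4]
    cases s
    · simp only [if_neg Bool.false_ne_true]
      rw [homT_neg]
      push_cast
      rw [g3]
      push_cast
      simp only [one_mul, zero_mul, add_zero, one_pow, mul_one]
    · simp only [if_true]
      push_cast
      rw [g3]
      push_cast
      simp only [one_mul, zero_mul, add_zero, one_pow, mul_one]

end Oct
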