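import Pool.Agent.helper70.Oct.Chk
import Pool.Agent.helper80.Oct.J3b
import Pool.Agent.helper41.Oct.C1
import Pool.Agent.helper97.Oct.J5a

set_option autoImplicit false

/-! # OCT-J5b: soundness of the integer test of a column -/

open MvPolynomial Set Filter Topology

namespace Oct

private theorem ev_hom {F : MvPolynomial (Fin 3) ℝ} {d : ℕ} (hF : F.IsHomogeneous d)
    (c : ℝ) (w : Fin 3 → ℝ) : eval (c • w) F = c ^ d * eval w F := by
  rw [MvPolynomial.eval_eq, MvPolynomial.eval_eq, Finset.mul_sum]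
  refine Finset.sum_congr rfl (fun m hm => ?_)
  have h1 : ∏ i ∈ m.support, (c • w) i ^ m i = c ^ d * ∏ i ∈ m.support, w i ^ m i := by
    have h2 : ∑ i ∈ m.support, m i = d := by
      have := hF (mem_support_iff.1 hm)
      rw [← this]
      simp [Finsupp.weight_apply, Finsupp.sum]
    rw [← h2, ← Finset.prod_pow_eq_pow_sum, ← Finset.prod_mul_distrib]
    refine Finset.prod_congr rfl (fun i _ => ?_)
    rw [Pi.smul_apply, smul_eq_mul, mul_pow]
  rw [h1]
  ring

private theorem nn_tn {z : ℤ} (h : nn z = true) : z = (tn z : ℤ) := by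
  cases z with
  | ofNat k => rfl
  | negSucc k => exact absurd h (by show ¬ (false = true); simp)

private theorem sg_not (b : Bool) : sg (!b) = -sg b := by
  cases b <;> simp [sg]

section
variable {F : MvPolynomial (Fin 3) ℝ} {ch : Chart} {G : List (List ℤ)}
  (hG : ∀ t u : ℝ, eval (ch.pt t u) F = evT G t u)
include hG

private theorem e0 (t u : ℝ) : eval ![t, u] (ch.pull F) = evT G t u := by
  rw [eval_pull, hG]

private theorem e0' : (fun p : ℝ × ℝ => eval ![p.1, p.2] (ch.pull F)) =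
    fun p => evT G p.1 p.2 := by
  funext p
  exact e0 hG p.1 p.2

private theorem eT (t u : ℝ) : eval ![t, u] (pderiv 0 (ch.pull F)) = evT (dT G) t u := by
  have h1 := hasDerivAt_fst (ch.pull F) t u
  have h2 : (fun x => eval ![x, u] (ch.pull F)) = fun x => evT G x u := by
    funext x
    exact e0 hG x u
  rw [h2] at h1
  exact h1.unique (Oct.hasDerivAt_dT G t u)

private theorem eU (t u : ℝ) : eval ![t, u] (pderiv 1 (ch.pull F)) = evT (dU G) t u := by
  have h1 := hasDerivAt_snd (ch.pull F) t u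
  have h2 : (fun x => eval ![t, x] (ch.pull F)) = fun x => evT G t x := by
    funext x
    exact e0 hG t x
  rw [h2] at h1
  exact h1.unique (Oct.hasDerivAt_dU G t u)

private theorem eUU (t u : ℝ) : eval ![t, u] (pderiv 1 (pderiv 1 (ch.pull F))) =
    evT (dU (dU G)) t u := by
  have h1 := hasDerivAt_snd (pderiv 1 (ch.pull F)) t u
  have h2 : (fun x => eval ![t, x] (pderiv 1 (ch.pull F))) = fun x => evT (dU G) t x := by
    funext x
    exact eU hG t x
  rw [h2] at h1
  exact h1.unique (Oct.hasDerivAt_dU (dU G) t u)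

end

/-- from values to `PosOn` -/
private theorem posOn_of {P : MvPolynomial (Fin 2) ℝ} {f : ℝ → ℝ → ℝ}
    (hP : ∀ t u, eval ![t, u] P = f t u) {r : ℝ} {a b x y : ℝ}
    (h : ∀ t ∈ Icc a b, ∀ u ∈ Icc x y, 0 < r * f t u) : PosOn (C r * P) a b x y := by
  intro t ht u hu
  rw [map_mul, eval_C, hP]
  exact h t ht u hu

private theorem pole_false : pole false = ![0, 0, 1] := by
  simp [pole, sg]

private theorem pole_true : pole true = (-1 : ℝ) • (![0, 0, 1] : Fin 3 → ℝ) := by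
  funext i
  fin_cases i <;> simp [pole, sg]

theorem colA_sound {B m n d : ℕ} {ch : Chart} {G : List (List ℤ)} {tm um : ℕ} {sp : Bool}
    {F : MvPolynomial (Fin 3) ℝ} (hF : F.IsHomogeneous d) (hd : Even d)
    (hG : ∀ t u : ℝ, eval (ch.pt t u) F = evT G t u)
    (hc : ctxA B m n ch G tm um = true) (hp : 0 < sg sp * eval ![0, 0, 1] F) {c : Column}
    (h : colA (pkOf B m n) (cnt n) ch G tm um sp c = true) : ColOK F sp c := by
  unfold ctxA at hc
  simp only [Bool.and_eq_true, decide_eq_true_eq] at hc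
  obtain ⟨⟨⟨⟨s0, sU⟩, sT⟩, sUU⟩, hal⟩ := hc
  unfold colA at h
  simp only [Bool.and_eq_true, decide_eq_true_eq, List.all_eq_true] at h
  obtain ⟨⟨⟨⟨⟨⟨hch, nX⟩, nR⟩, hRX⟩, hbt⟩, ⟨⟨nL, nH⟩, hcap⟩⟩, hbox⟩ := h
  subst hch
  set X := tn c.X with hX
  set R := tn c.R with hR
  have hRX' : R ≤ X := Nat.le_of_ble_eq_true hRX
  have hbt' : X + R ≤ tm := Nat.le_of_ble_eq_true hbt
  have hat' : X - R ≤ tm := by omega
  have ca : c.a = ((X - R : ℕ) : ℤ) := by
    unfold Column.a
    rw [nn_tn nX, nn_tn nR, ← hX, ← hR, Nat.cast_sub hRX']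
  have cb : c.b = ((X + R : ℕ) : ℤ) := by
    unfold Column.b
    rw [nn_tn nX, nn_tn nR, ← hX, ← hR, Nat.cast_add]
  have ca' : (c.a : ℝ) = ((X - R : ℕ) : ℝ) := by rw [ca]; simp
  have cb' : (c.b : ℝ) = ((X + R : ℕ) : ℝ) := by rw [cb]; simp
  have cH : (c.H : ℝ) = ((tn c.H : ℕ) : ℝ) := by
    have := nn_tn nH
    exact_mod_cast congrArg (fun z : ℤ => (z : ℝ)) this
  have cL : (c.L : ℝ) = ((tn c.L : ℕ) : ℝ) := by
    have := nn_tn nL
    exact_mod_cast congrArg (fun z : ℤ => (z : ℝ)) this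
  have hcs := cap_sound s0 hat' hbt' hcap
  have hal' : (0 : ℝ) < c.ch.al := by exact_mod_cast hal
  have key : ∀ (t s u : ℝ), 0 < s → 0 < sg sp * evT G t u →
      0 < sg sp * eval (s • c.ch.pt t u) F := by
    intro t s u hs hpos
    rw [ev_hom hF, hG]
    have : sg sp * (s ^ d * evT G t u) = s ^ d * (sg sp * evT G t u) := by ring
    rw [this]
    exact mul_pos (pow_pos hs d) hpos
  refine ⟨?_, ?_, ?_⟩
  · intro t ht s hs
    rw [ca', cb'] at ht
    rw [map_mul, eval_C, eval_pullEnd]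
    have hp2 : pole (!true) = ![0, 0, 1] := pole_false
    rw [hp2]
    rcases hs.1.eq_or_lt with h0 | h0
    · rw [← h0, zero_smul, zero_add, sub_zero, one_smul]
      exact hp
    · have hs0 : s ≠ 0 := h0.ne'
      have hal0 : (c.ch.al : ℝ) ≠ 0 := hal'.ne'
      have e1 : s • c.ch.pt t c.H + (1 - s) • (![0, 0, 1] : Fin 3 → ℝ) =
          s • c.ch.pt t (c.H + (1 - s) / (s * c.ch.al)) := by
        funext i
        fin_cases i
        · simp [Chart.pt]
        · simp [Chart.pt]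
        · simp [Chart.pt]
          field_simp
          ring
      rw [e1]
      refine key t s _ h0 ((hcs t ht).1 _ ?_)
      rw [cH]
      have : 0 ≤ (1 - s) / (s * c.ch.al) := div_nonneg (by linarith [hs.2]) (by positivity)
      linarith
  · intro t ht s hs
    rw [ca', cb'] at ht
    rw [map_mul, eval_C, eval_pullEnd]
    have hp2 : pole (!false) = (-1 : ℝ) • (![0, 0, 1] : Fin 3 → ℝ) := pole_true
    rw [hp2]
    rcases hs.1.eq_or_lt with h0 | h0
    · rw [← h0, zero_smul, zero_add, sub_zero, one_smul, ev_hom hF, hd.neg_one_pow, one_mul]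
      exact hp
    · have hs0 : s ≠ 0 := h0.ne'
      have hal0 : (c.ch.al : ℝ) ≠ 0 := hal'.ne'
      have e1 : s • c.ch.pt t c.L + (1 - s) • ((-1 : ℝ) • (![0, 0, 1] : Fin 3 → ℝ)) =
          s • c.ch.pt t (c.L - (1 - s) / (s * c.ch.al)) := by
        funext i
        fin_cases i
        · simp [Chart.pt]
        · simp [Chart.pt]
        · simp [Chart.pt]
          field_simp
          ring
      rw [e1]
      refine key t s _ h0 ((hcs t ht).2 _ ?_)
      rw [cL]
      have : 0 ≤ (1 - s) / (s * c.ch.al) := div_nonneg (by linarith [hs.2]) (by positivity)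
      linarith
  · intro b hb
    have hbb := hbox b hb
    unfold boxA at hbb
    rw [Bool.and_eq_true] at hbb
    obtain ⟨hb1, hb2⟩ := hbb
    simp only [Bool.and_eq_true] at hb1
    obtain ⟨⟨⟨nc, ns⟩, hsc⟩, hhi⟩ := hb1
    have hsc' : tn b.s ≤ tn b.c := Nat.le_of_ble_eq_true hsc
    have hhi' : tn b.c + tn b.s ≤ um := Nat.le_of_ble_eq_true hhi
    have hlo' : tn b.c - tn b.s ≤ um := by omega
    have hcu : tn b.c ≤ um := by omega
    have blo : (b.lo : ℝ) = ((tn b.c - tn b.s : ℕ) : ℝ) := by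
      have : b.lo = ((tn b.c - tn b.s : ℕ) : ℤ) := by
        unfold Box.lo
        rw [Nat.cast_sub hsc', ← nn_tn nc, ← nn_tn ns]
      exact_mod_cast congrArg (fun z : ℤ => (z : ℝ)) this
    have bhi : (b.hi : ℝ) = ((tn b.c + tn b.s : ℕ) : ℝ) := by
      have : b.hi = ((tn b.c + tn b.s : ℕ) : ℤ) := by
        unfold Box.hi
        rw [Nat.cast_add, ← nn_tn nc, ← nn_tn ns]
      exact_mod_cast congrArg (fun z : ℤ => (z : ℝ)) this
    have bc : (b.c : ℝ) = ((tn b.c : ℕ) : ℝ) := by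
      exact_mod_cast congrArg (fun z : ℤ => (z : ℝ)) (nn_tn nc)
    have f0 : ∀ t u, eval ![t, u] (c.ch.pull F) = evT G t u := e0 hG
    have fT : ∀ t u, eval ![t, u] (pderiv 0 (c.ch.pull F)) = evT (dT G) t u := eT hG
    have fU : ∀ t u, eval ![t, u] (pderiv 1 (c.ch.pull F)) = evT (dU G) t u := eU hG
    have fUU : ∀ t u, eval ![t, u] (pderiv 1 (pderiv 1 (c.ch.pull F))) = evT (dU (dU G)) t u :=
      eUU hG
    rw [BoxOK, ca', cb', blo, bhi, bc]
    have ty : b.ty = 0 ∨ b.ty = 1 ∨ b.ty = 2 ∨ b.ty = 3 ∨ 4 ≤ b.ty := by omega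
    rcases ty with ty | ty | ty | ty | ty
    · rw [ty] at hb2
      simp only [Bool.and_eq_true, beq_iff_eq] at hb2
      obtain ⟨q1, q2⟩ := hb2
      have p2 := tst_box s0 hat' hbt' hlo' hhi' q2
      refine ⟨posOn_of f0 (fun t ht u hu => p2 t ht u ⟨hu.1, hu.2.trans ?_⟩),
        posOn_of f0 (fun t ht u hu => ?_), Or.inl ⟨ty, q1, posOn_of f0 p2⟩⟩
      · exact_mod_cast (by omega : tn b.c - tn b.s ≤ tn b.c + tn b.s)
      · rw [← q1]
        refine p2 t ht u ⟨le_trans ?_ hu.1, hu.2⟩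
        exact_mod_cast (by omega : tn b.c - tn b.s ≤ tn b.c + tn b.s)
    · rw [ty] at hb2
      simp only [Bool.and_eq_true, beq_iff_eq] at hb2
      obtain ⟨⟨⟨q1, q2⟩, q3⟩, q4⟩ := hb2
      have p2 := tst_boxU s0 sU hat' hbt' hlo' hhi' q2
      have p3 := tst_box s0 hat' hbt' hlo' hlo' q3
      have p4 := tst_box s0 hat' hbt' hhi' hhi' q4
      exact ⟨posOn_of f0 p3, posOn_of f0 p4, Or.inr (Or.inl ⟨ty, q1, posOn_of fU p2⟩)⟩
    · rw [ty] at hb2
      simp only [Bool.and_eq_true, beq_iff_eq] at hb2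
      obtain ⟨⟨⟨⟨⟨⟨q1, q2⟩, q3⟩, q4⟩, q5⟩, q6⟩, q7⟩ := hb2
      have p2 := tst_box s0 hat' hbt' hlo' hlo' q2
      have p3 := tst_box s0 hat' hbt' hhi' hhi' q3
      have p4 := tst_box s0 hat' hat' hlo' hhi' q4
      have p5 := tst_box sT hat' hbt' hlo' hhi' q5
      have p6 := tst_box sUU hbt' hbt' hlo' hhi' q6
      have p7 := tst_box s0 hbt' hbt' hcu hcu q7
      rw [sg_not] at p5 p7
      exact ⟨posOn_of f0 p2, posOn_of f0 p3, Or.inr (Or.inr (Or.inl ⟨ty, q1, posOn_of f0 p4,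
        posOn_of fT p5, posOn_of fUU p6, posOn_of f0 p7⟩))⟩
    · rw [ty] at hb2
      simp only [Bool.and_eq_true, beq_iff_eq] at hb2
      obtain ⟨⟨⟨⟨⟨⟨q1, q2⟩, q3⟩, q4⟩, q5⟩, q6⟩, q7⟩ := hb2
      have p2 := tst_box s0 hat' hbt' hlo' hlo' q2
      have p3 := tst_box s0 hat' hbt' hhi' hhi' q3
      have p4 := tst_box s0 hbt' hbt' hlo' hhi' q4
      have p5 := tst_box sT hat' hbt' hlo' hhi' q5
      have p6 := tst_box sUU hat' hat' hlo' hhi' q6
      have p7 := tst_box s0 hat' hat' hcu hcu q7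
      rw [sg_not] at p7
      exact ⟨posOn_of f0 p2, posOn_of f0 p3, Or.inr (Or.inr (Or.inr ⟨ty, q1, posOn_of f0 p4,
        posOn_of fT p5, posOn_of fUU p6, posOn_of f0 p7⟩))⟩
    · exfalso
      obtain ⟨k, hk⟩ : ∃ k, b.ty = k + 4 := ⟨b.ty - 4, by omega⟩
      rw [hk] at hb2
      exact absurd hb2 (by simp)

end Oct
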